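import Pool.Agent.MP_ed9623_an.H77.SpecX
import Pool.Agent.MP_ed9623_an.H99.Tail

/-! The leading term of the curl of the force in the zone. -/

open MeasureTheory Filter Topology Set
open scoped ContDiff

namespace Pool.Agent.MP_ed9623_an.H77

open H64

namespace JetZ

theorem kap {ρ : ℝ × ℝ → ℝ} (hρ : ∀ k : ℕ, ContDiff ℝ k ρ) {x : ℝ × ℝ} (hx : fderiv ℝ ρ x ≠ 0) :
    0 < gsq ρ x ∧ ∃ c, 0 < c ∧ kap2 ρ x = c * dcurvature ρ x := by
  have g0 : 0 < gsq ρ x := by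
    by_contra hn
    have hn := not_lt.1 hn
    unfold gsq at hn
    refine hx (fderiv_zero_of_pd fun e => ?_)
    rw [pd_dir2]
    generalize pd (1, 0) ρ x = r1 at *
    generalize pd (0, 1) ρ x = r2 at *
    rw [show r1 = 0 by nlinarith [sq_nonneg r1, sq_nonneg r2],
      show r2 = 0 by nlinarith [sq_nonneg r1, sq_nonneg r2]]
    ring
  have s0 := Real.sqrt_pos.2 g0
  have e : curvature ρ = fun y => curv2 ρ y / Real.sqrt (gsq ρ y) ^ 3 := rfl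
  refine ⟨g0, 2 * Real.sqrt (gsq ρ x) ^ 5, by positivity, ?_⟩
  have d1 := cdg_diff (cd_curv2 hρ) le_rfl x
  have d2 := cdg_diff (cd_gsq hρ) le_rfl x
  have d3 : DifferentiableAt ℝ (curvature ρ) x := by
    have := d1.mul (((d2.sqrt g0.ne').fun_pow 3).inv (pow_ne_zero 3 s0.ne'))
    rw [e]
    exact this
  set τ : ℝ × ℝ := (-pd (0, 1) ρ x, pd (1, 0) ρ x) with hτ
  have a1 := HD.of_diff (e := τ) d1
  have a2 := HD.of_diff (e := τ) d2
  have a3 := HasDerivAt.fun_div a1 ((HasDerivAt.sqrt a2 (by simpa using g0.ne')).fun_pow 3)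
    (by simpa using s0.ne')
  have a4 := (HD.of_diff (e := τ) d3).unique a3
  have q := Real.sq_sqrt g0.le
  simp only [zero_smul, add_zero] at a4
  change _ = _ * pd τ (curvature ρ) x
  rw [a4, kap2, ← hτ]
  generalize Real.sqrt (gsq ρ x) = s at *
  rw [← q]
  field_simp
  ring

end JetZ

theorem rowJetZ : OfJetZ := by
  intro ρ x hρ' h0 hk'
  have hρ : ∀ k : ℕ, ContDiff ℝ k ρ := fun k => hρ'.of_le (by exact_mod_cast le_top)
  have hk : 0 < curv2 ρ x := by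
    by_contra h
    exact hk'.not_ge (div_nonpos_of_nonpos_of_nonneg (not_lt.1 h) (by positivity))
  obtain ⟨g0, c, c0, hc⟩ := JetZ.kap hρ (fderiv_ne_of_curv2 hk.ne')
  refine ⟨c / (180 * gsq ρ x ^ 6), by positivity, fun t₀ ε W Z t ht hω => ?_⟩
  have s2 : x ∈ Metric.ball x ε := Metric.mem_ball_self (Metric.pos_of_mem_ball ht)
  have l3 := fun {f : ST → ℝ} (h : ContDiff ℝ (6 : ℕ) f) => cdg_le h (by norm_num : 3 ≤ 6)
  have hr : ∀ k : ℕ, ContDiff ℝ k fun y : ST => ρ y.2 := fun k => (hρ k).comp contDiff_snd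
  have t0 : pd e0 (fun y : ST => ρ y.2) = 0 := by
    rw [pd_snd_fun (hρ 1)]; funext z; simp [pd, Prod.mk_zero_zero]
  have ev : ∀ᶠ z : ST in 𝓝 (t, x), ρ z.2 < 0 → Lh (W 0) z = 0 ∧ Lh (W 1) z = 0 ∧
      pd e1 (W 0) z + pd e2 (W 1) z = 0 ∧ pd e0 (cv W) z = 0 := mem_of_superset
    ((Metric.isOpen_ball.prod Metric.isOpen_ball).mem_nhds ⟨ht, s2⟩) fun z hz => Z.eq z hz.1 hz.2
  obtain ⟨L, j1, j2⟩ := Tail.jetH (z := (t, x)) hr t0 h0
    (by rw [curv_snd (hρ 2)]; exact hk.ne') (Z.sm 0 _ ht s2) (Z.sm 1 _ ht s2)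
    (l3 (Z.c6 0)) (l3 (Z.c6 1)) (eventually_nhdsWithin_iff.2 ev)
    (fun y hy => ⟨Z.bd 0 y hy, Z.bd 1 y hy⟩) hω
  have tt : Tendsto (fun y : ℝ × ℝ => ((t, y) : ST)) (𝓝[{x | ρ x < 0}] x)
      (𝓝[{y : ST | ρ y.2 < 0}] (t, x)) :=
    (Continuous.continuousWithinAt (by fun_prop)).tendsto_nhdsWithin fun x hx => hx
  have e : GS (fun y : ST => ρ y.2) (t, x) = gsq ρ x := by
    simp only [GS, gsq, pd_snd_fun (hρ 1), Pi.add_apply, Pi.mul_apply, sq]
  rw [kapS_snd hρ, e, hc] at j2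
  have k : c / (180 * gsq ρ x ^ 6) * (vo W (t, x) * pd e0 (pd e0 (vo W)) (t, x)
      - pd e0 (vo W) (t, x) ^ 2) * dcurvature ρ x = L := by
    rw [div_mul_eq_mul_div, div_mul_eq_mul_div, div_eq_iff (by positivity), mul_comm L, j2]
    change _ = (vo W (t, x) * pd e0 (pd e0 (vo W)) (t, x) - pd e0 (vo W) (t, x) ^ 2) * _
    ring
  rw [k]
  exact j1.comp tt

end Pool.Agent.MP_ed9623_an.H77
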